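import Pool.Agent.Run7.h61.LD.Fin

/-!
# The family of all curves `y² = x³ + ax + b`
-/

set_option autoImplicit false

namespace Run7.h61.LD

open NumberField IsDedekindDomain Polynomial
open Run7.h876.HY

/-- The family of all curves `y² = x³ + ax + b`. -/
noncomputable def allCurves (K : Type) [Field K] [NumberField K] : Family K (Fin 0) where
  r := 0
  F₀ := X ^ 3
  x := Fin.elim0
  y := Fin.elim0
  P := Fin.elim0
  monic := monic_X_pow 3
  deg_three := by rw [natDegree_X_pow]
  deg := by rw [natDegree_X_pow]; norm_num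
  deg_P := fun j => j.elim0
  x_inj := fun i => i.elim0
  y_ne := fun i => i.elim0
  on_curve := fun i => i.elim0

theorem allCurves_facts (K : Type) [Field K] [NumberField K] :
    ∃ 𝓕 : Family K (Fin 0), 𝓕.rk = 0 ∧ ∀ t : Fin 2 ⊕ Fin 0 → 𝓞 K,
      𝓕.member t = X ^ 3 + C (t (Sum.inl 0)) * X + C (t (Sum.inl 1)) := by
  refine ⟨allCurves K, ?_, fun t => ?_⟩
  · unfold Family.rk
    have h : (allCurves K).F₀.natDegree = 3 := natDegree_X_pow 3
    rw [h]
    have h2 : (allCurves K).r = 0 := rfl
    rw [h2, if_pos (by decide)]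
  · have h : (allCurves K).F₀ = X ^ 3 := rfl
    have h3 : (∏ i, (X - C ((allCurves K).x i))) = (1 : (𝓞 K)[X]) := Fin.prod_univ_zero _
    have h4 : ∑ j, C (t (Sum.inr j)) * (allCurves K).P j = 0 := Fin.sum_univ_zero _
    unfold Family.member
    rw [h, h3, h4]
    ring

end Run7.h61.LD
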