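import Pool.Agent.Run7.h9.BS.Defs

/-!
# Averages, and the nearest integer to the exponent of the product of Birch and Swinnerton-Dyer
-/

set_option autoImplicit false

namespace Run7.h61.LD

open NumberField IsDedekindDomain Polynomial
open Run7.h876.EN (box tuple)
open Run7.h9.BS (bsd zetaProd)

section
variable {K : Type} [Field K] [NumberField K]

/-- The nearest integer to `log B / log M`, `B` the product of Birch and Swinnerton-Dyer of `y² = f(x)` up to `Z`
and `M` the part `Nv ≤ Z` of the Euler product of the zeta function of `K` at `1`. -/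
noncomputable def rankGuess (Z : ℕ) (f : (𝓞 K)[X]) : ℤ := round (Real.log (bsd Z f) / Real.log (zetaProd K Z))

variable {ι : Type} [Fintype ι] [DecidableEq ι] {J : Type} [Fintype J] [DecidableEq J]

open Classical in
/-- The average of `Y` over the tuples in `G` with coordinates at most `H j` in absolute value. -/
noncomputable def avgOn (ω : Module.Basis ι ℤ (𝓞 K)) (H : J → ℕ) (G : Set (J → 𝓞 K)) (Y : (J → 𝓞 K) → ℝ) : ℝ :=
  (∑ c ∈ (box ι H).filter fun c => tuple ω c ∈ G, Y (tuple ω c)) /
    (((box ι H).filter fun c => tuple ω c ∈ G).card : ℝ)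

end

end Run7.h61.LD
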