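import Pool.Agent.Run7.h61.LD.Half

/-!
# Exact large deviations of the products of Birch and Swinnerton-Dyer
-/

set_option autoImplicit false
set_option linter.unusedSectionVars false

namespace Run7.h61.LD

open NumberField IsDedekindDomain Finset Filter Topology Polynomial
open Run7.h876.MM (nv kv SZ instFieldKv instFintypeKv)
open Run7.h876.EN Run7.h876.HY
open Run7.h9.BS
open Run7.h9.BS.LocalData (prop_nonneg prop_mono prop_or)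

section
variable {K : Type} [Field K] [NumberField K] {J : Type} [Fintype J] [DecidableEq J] (𝓕 : Family K J)
variable {ι : Type} [Fintype ι] [DecidableEq ι] (ω : Module.Basis ι ℤ (𝓞 K))

theorem up {θ : ℝ} (hθ : 0 < θ) (a : ℝ) {ε : ℝ} (hε : 0 < ε) :
    ∃ Z₀ : ℕ, ∀ Z : ℕ, Z₀ ≤ Z → ∀ H : Fin 2 ⊕ J → ℕ, (∀ j, Real.exp ((Z : ℝ) ^ (1 + θ)) ≤ H j) →
      0 < prop ω H 𝓕.smooth (fun t => a * Real.log (zetaProd K Z) ≤ Real.log (bsd Z (𝓕.member t))) ∧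
      |Real.log (prop ω H 𝓕.smooth (fun t => a * Real.log (zetaProd K Z) ≤ Real.log (bsd Z (𝓕.member t)))) /
        Real.log (zetaProd K Z) + (max (a - (𝓕.rk + 1 / 2)) 0) ^ 2 / 2| ≤ ε := by
  obtain ⟨Z₀, hZ₀⟩ := half_up (bsdData 𝓕) ω (by positivity) (thin_smooth 𝓕 ω) hθ a hε
  refine ⟨Z₀, fun Z hZ H hH => ?_⟩
  have h := hZ₀ Z hZ H hH
  have e1 : (bsdData 𝓕).D = 1 := rfl
  have e2 : (bsdData 𝓕).m = 𝓕.rk + 1 / 2 := rfl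
  rw [e1, e2, mul_one] at h
  simp only [log_bsd, log_zetaProd]
  exact h

theorem down {θ : ℝ} (hθ : 0 < θ) (b : ℝ) {ε : ℝ} (hε : 0 < ε) :
    ∃ Z₀ : ℕ, ∀ Z : ℕ, Z₀ ≤ Z → ∀ H : Fin 2 ⊕ J → ℕ, (∀ j, Real.exp ((Z : ℝ) ^ (1 + θ)) ≤ H j) →
      0 < prop ω H 𝓕.smooth (fun t => Real.log (bsd Z (𝓕.member t)) ≤ b * Real.log (zetaProd K Z)) ∧
      |Real.log (prop ω H 𝓕.smooth (fun t => Real.log (bsd Z (𝓕.member t)) ≤ b * Real.log (zetaProd K Z))) /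
        Real.log (zetaProd K Z) + (max (𝓕.rk + 1 / 2 - b) 0) ^ 2 / 2| ≤ ε := by
  obtain ⟨Z₀, hZ₀⟩ := half_down (bsdData 𝓕) ω (by positivity) (thin_smooth 𝓕 ω) hθ b hε
  refine ⟨Z₀, fun Z hZ H hH => ?_⟩
  have h := hZ₀ Z hZ H hH
  have e1 : (bsdData 𝓕).D = 1 := rfl
  have e2 : (bsdData 𝓕).m = 𝓕.rk + 1 / 2 := rfl
  rw [e1, e2, mul_one] at h
  simp only [log_bsd, log_zetaProd]
  exact h

theorem between {θ : ℝ} (hθ : 0 < θ) {a b : ℝ} (hab : a < b) {ε : ℝ} (hε : 0 < ε) :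
    ∃ Z₀ : ℕ, ∀ Z : ℕ, Z₀ ≤ Z → ∀ H : Fin 2 ⊕ J → ℕ, (∀ j, Real.exp ((Z : ℝ) ^ (1 + θ)) ≤ H j) →
      0 < prop ω H 𝓕.smooth (fun t => a * Real.log (zetaProd K Z) ≤ Real.log (bsd Z (𝓕.member t)) ∧
        Real.log (bsd Z (𝓕.member t)) ≤ b * Real.log (zetaProd K Z)) ∧
      |Real.log (prop ω H 𝓕.smooth (fun t => a * Real.log (zetaProd K Z) ≤ Real.log (bsd Z (𝓕.member t)) ∧
        Real.log (bsd Z (𝓕.member t)) ≤ b * Real.log (zetaProd K Z))) / Real.log (zetaProd K Z) +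
        (max (max (a - (𝓕.rk + 1 / 2)) (𝓕.rk + 1 / 2 - b)) 0) ^ 2 / 2| ≤ ε := by
  obtain ⟨Z₀, hZ₀⟩ := interval (bsdData 𝓕) ω (by positivity) (thin_smooth 𝓕 ω) hθ hab hε
  refine ⟨Z₀, fun Z hZ H hH => ?_⟩
  have h := hZ₀ Z hZ H hH
  have e1 : (bsdData 𝓕).D = 1 := rfl
  have e2 : (bsdData 𝓕).m = 𝓕.rk + 1 / 2 := rfl
  rw [e1, e2, mul_one] at h
  simp only [log_bsd, log_zetaProd]
  exact h

theorem guess_iff {Z : ℕ} (hV : 0 < Real.log (zetaProd K Z)) (f : (𝓞 K)[X]) (r : ℤ) :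
    rankGuess Z f = r ↔ ((r : ℝ) - 1 / 2) * Real.log (zetaProd K Z) ≤ Real.log (bsd Z f) ∧
      Real.log (bsd Z f) < ((r : ℝ) + 1 / 2) * Real.log (zetaProd K Z) := by
  unfold rankGuess
  rw [round_eq, Int.floor_eq_iff, ← le_div_iff₀ hV, ← div_lt_iff₀ hV]
  constructor
  · rintro ⟨h1, h2⟩
    constructor <;> linarith
  · rintro ⟨h1, h2⟩
    constructor <;> linarith

theorem guess {θ : ℝ} (hθ : 0 < θ) (r : ℤ) {ε : ℝ} (hε : 0 < ε) :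
    ∃ Z₀ : ℕ, ∀ Z : ℕ, Z₀ ≤ Z → ∀ H : Fin 2 ⊕ J → ℕ, (∀ j, Real.exp ((Z : ℝ) ^ (1 + θ)) ≤ H j) →
      0 < prop ω H 𝓕.smooth (fun t => rankGuess Z (𝓕.member t) = r) ∧
      |Real.log (prop ω H 𝓕.smooth (fun t => rankGuess Z (𝓕.member t) = r)) / Real.log (zetaProd K Z) +
        (max (max ((r : ℝ) - 𝓕.rk - 1) (𝓕.rk - r)) 0) ^ 2 / 2| ≤ ε := by
  obtain ⟨Z₀, hZ₀⟩ := interval_Ico (bsdData 𝓕) ω (by positivity) (thin_smooth 𝓕 ω) hθ (show (r : ℝ) - 1 / 2 < r + 1 / 2 by linarith) hε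
  obtain ⟨Z₁, hZ₁⟩ := Filter.eventually_atTop.1 ((VZ_atTop (K := K)).eventually_gt_atTop 0)
  refine ⟨max Z₀ Z₁, fun Z hZ H hH => ?_⟩
  have h := hZ₀ Z ((le_max_left _ _).trans hZ) H hH
  have hV : 0 < Real.log (zetaProd K Z) := by
    rw [log_zetaProd]
    exact hZ₁ Z ((le_max_right _ _).trans hZ)
  have e1 : (bsdData 𝓕).D = 1 := rfl
  have e2 : (bsdData 𝓕).m = 𝓕.rk + 1 / 2 := rfl
  rw [e1, e2, mul_one] at h
  simp only [guess_iff hV, log_bsd]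
  simp only [log_zetaProd]
  have e3 : (r : ℝ) - 1 / 2 - (𝓕.rk + 1 / 2) = r - 𝓕.rk - 1 := by ring
  have e4 : (𝓕.rk : ℝ) + 1 / 2 - (r + 1 / 2) = 𝓕.rk - r := by ring
  rw [e3, e4] at h
  exact h

end

end Run7.h61.LD
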