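import Pool.Agent.Run7.h61.LD.Int
import Pool.Agent.Run7.h61.LD.Defs
import Pool.Agent.H941.G3
import Pool.Agent.R755.Tr.Phi

/-!
# The law of the nearest integer: one half and one half, with all moments
-/

set_option autoImplicit false
set_option linter.unusedSectionVars false

namespace Run7.h61.LD

open NumberField IsDedekindDomain Finset Filter Topology Polynomial
open Run7.h876.MM (nv kv SZ instFieldKv instFintypeKv)
open Run7.h876.EN Run7.h876.HY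
open Run7.h9.BS
open Run7.h9.BS.LocalData (prop_nonneg prop_mono prop_or)

theorem Phi_zero : Phi 0 = 1 / 2 := H941.G3.half_exp_half one_ne_zero

theorem Phi_cont : Continuous Phi := by
  have h : Phi = Pool.Agent.R755.Tr.Ph := by
    funext x
    rw [Pool.Agent.R755.Tr.Ph_real]
    rfl
  rw [h]
  exact Pool.Agent.R755.Tr.Ph_cont

section
variable {K : Type} [Field K] [NumberField K]
variable {ι : Type} [Fintype ι] [DecidableEq ι] {J : Type} [Fintype J] [DecidableEq J]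
variable (ω : Module.Basis ι ℤ (𝓞 K)) {G : Set (J → 𝓞 K)} {Cb : ℝ}

open Classical in
theorem avgOn_mono (H : J → ℕ) {Y Y' : (J → 𝓞 K) → ℝ} (h : ∀ t, Y t ≤ Y' t) : avgOn ω H G Y ≤ avgOn ω H G Y' := by
  unfold avgOn
  exact div_le_div_of_nonneg_right (Finset.sum_le_sum fun c _ => h _) (Nat.cast_nonneg _)

open Classical in
theorem avgOn_prop (H : J → ℕ) (P : (J → 𝓞 K) → Prop) (a : ℝ) :
    avgOn ω H G (fun t => if P t then a else 0) = a * prop ω H G P := by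
  unfold avgOn prop
  rw [← Finset.sum_filter, Finset.sum_const, Finset.filter_filter, nsmul_eq_mul]
  ring

theorem avgOn_add (H : J → ℕ) (Y Y' : (J → 𝓞 K) → ℝ) : avgOn ω H G (fun t => Y t + Y' t) = avgOn ω H G Y + avgOn ω H G Y' := by
  unfold avgOn
  rw [Finset.sum_add_distrib, add_div]

theorem avgOn_abs (H : J → ℕ) (Y : (J → 𝓞 K) → ℝ) : |avgOn ω H G Y| ≤ avgOn ω H G (fun t => |Y t|) := by
  unfold avgOn
  rw [abs_div, Nat.abs_cast]
  exact div_le_div_of_nonneg_right (Finset.abs_sum_le_sum_abs _ _) (Nat.cast_nonneg _)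

theorem avgOn_smul (H : J → ℕ) (a : ℝ) (Y : (J → 𝓞 K) → ℝ) : avgOn ω H G (fun t => a * Y t) = a * avgOn ω H G Y := by
  unfold avgOn
  rw [← Finset.mul_sum, mul_div_assoc]

open Classical in
theorem prop_compl (H : J → ℕ) (hne : ((box ι H).filter fun c => tuple ω c ∈ G).Nonempty) (P : (J → 𝓞 K) → Prop) :
    prop ω H G P + prop ω H G (fun t => ¬ P t) = 1 := by
  rw [prop_eq, prop_eq, ← add_div, div_eq_one_iff_eq (by exact_mod_cast hne.card_pos.ne')]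
  have h := Finset.card_filter_add_card_filter_not (s := (box ι H).filter fun c => tuple ω c ∈ G) (fun c => P (tuple ω c))
  rw [← h]
  push_cast
  congr

/-- Layers. -/
theorem floor_pow_le (k N : ℕ) (u : ℝ) (hu : 0 ≤ u) (hN : u < N) :
    ((⌊u⌋₊ : ℝ)) ^ k * (if 1 ≤ u then 1 else 0) ≤ ∑ j ∈ Finset.Ioo 0 (N + 1), if (j : ℝ) ≤ u then (j : ℝ) ^ k else 0 := by
  by_cases h : 1 ≤ u
  · rw [if_pos h, mul_one]
    have h1 : 1 ≤ ⌊u⌋₊ := Nat.le_floor (by exact_mod_cast h)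
    have h2 : ⌊u⌋₊ ∈ Finset.Ioo 0 (N + 1) := by
      rw [Finset.mem_Ioo]
      refine ⟨h1, ?_⟩
      have := (Nat.floor_lt hu).2 hN
      omega
    have h3 := Finset.single_le_sum (f := fun j : ℕ => if (j : ℝ) ≤ u then (j : ℝ) ^ k else 0)
      (fun j _ => by positivity) h2
    refine le_trans (le_of_eq ?_) h3
    rw [if_pos (Nat.floor_le hu)]
  · rw [if_neg h, mul_zero]
    exact Finset.sum_nonneg fun j _ => by positivity

open Classical in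
/-- The average of the layers. -/
theorem avg_layers (H : J → ℕ) (k : ℕ) (U : (J → 𝓞 K) → ℝ) (hU : ∀ t, 0 ≤ U t) {A : ℝ} (hA : 0 ≤ A)
    (h : ∀ a : ℝ, 1 ≤ a → prop ω H G (fun t => a ≤ U t) ≤ A / a ^ (k + 2)) :
    avgOn ω H G (fun t => ((⌊U t⌋₊ : ℝ)) ^ k * (if 1 ≤ U t then 1 else 0)) ≤ 2 * A := by
  obtain ⟨N, hN⟩ := exists_nat_gt (∑ c ∈ (box ι H).filter fun c => tuple ω c ∈ G, U (tuple ω c))
  have h1 : avgOn ω H G (fun t => ((⌊U t⌋₊ : ℝ)) ^ k * (if 1 ≤ U t then 1 else 0)) ≤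
      ∑ j ∈ Finset.Ioo 0 (N + 1), (j : ℝ) ^ k * prop ω H G (fun t => (j : ℝ) ≤ U t) := by
    have e : ∑ j ∈ Finset.Ioo 0 (N + 1), (j : ℝ) ^ k * prop ω H G (fun t => (j : ℝ) ≤ U t) =
        avgOn ω H G (fun t => ∑ j ∈ Finset.Ioo 0 (N + 1), if (j : ℝ) ≤ U t then (j : ℝ) ^ k else 0) := by
      simp only [← avgOn_prop]
      unfold avgOn
      rw [Finset.sum_comm, Finset.sum_div]
    rw [e]
    unfold avgOn
    refine div_le_div_of_nonneg_right (Finset.sum_le_sum fun c hc => floor_pow_le k N _ (hU _) ?_) (Nat.cast_nonneg _)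
    exact lt_of_le_of_lt (Finset.single_le_sum (f := fun c => U (tuple ω c)) (fun c _ => hU _) hc) hN
  refine h1.trans ?_
  have h2 : ∀ j ∈ Finset.Ioo 0 (N + 1), (j : ℝ) ^ k * prop ω H G (fun t => (j : ℝ) ≤ U t) ≤ A * ((j : ℝ) ^ 2)⁻¹ := by
    intro j hj
    have hj1 : (1 : ℝ) ≤ j := by exact_mod_cast (Finset.mem_Ioo.1 hj).1
    have hj0 : (0 : ℝ) < j := by linarith
    refine (mul_le_mul_of_nonneg_left (h j hj1) (by positivity)).trans (le_of_eq ?_)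
    rw [pow_add]
    field_simp
  refine (Finset.sum_le_sum h2).trans ?_
  rw [← Finset.mul_sum]
  have h3 : ∑ j ∈ Finset.Ioo 0 (N + 1), ((j : ℝ) ^ 2)⁻¹ ≤ 2 := by
    have := sum_Ioo_inv_sq_le (α := ℝ) 0 (N + 1)
    simpa using this
  nlinarith

end

/-- The nearest integer and the normalized deviation. -/
theorem round_facts (ρ : ℕ) (x : ℝ) (h : round x ≠ (ρ : ℤ) ∧ round x ≠ (ρ : ℤ) + 1) : 1 ≤ |x - (ρ + 1 / 2)| := by
  by_contra hcon
  rw [not_le, abs_lt] at hcon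
  rcases lt_or_ge x (ρ + 1 / 2) with hx | hx
  · apply h.1
    rw [round_eq, Int.floor_eq_iff]
    push_cast
    constructor <;> linarith [hcon.1, hcon.2]
  · apply h.2
    rw [round_eq, Int.floor_eq_iff]
    push_cast
    constructor <;> linarith [hcon.1, hcon.2]

theorem round_eq_left (ρ : ℕ) (x : ℝ) (h : round x = (ρ : ℤ)) : x < ρ + 1 / 2 := by
  rw [round_eq, Int.floor_eq_iff] at h
  push_cast at h
  linarith [h.2]

theorem round_eq_right (ρ : ℕ) (x : ℝ) (h : round x = (ρ : ℤ) + 1) : ρ + 1 / 2 ≤ x := by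
  rw [round_eq, Int.floor_eq_iff] at h
  push_cast at h
  linarith [h.1]

theorem abs_round_le (ρ : ℕ) (x : ℝ) (h : 1 ≤ |x - (ρ + 1 / 2)|) :
    1 + |((round x : ℤ) : ℝ)| ≤ 2 * (ρ + 3) * (⌊|x - (ρ + 1 / 2)|⌋₊ : ℝ) := by
  have h1 : |((round x : ℤ) : ℝ)| ≤ |x| + 1 / 2 := by
    have := abs_sub_round x
    have h2 : ((round x : ℤ) : ℝ) = x - (x - round x) := by ring
    rw [h2]
    exact (abs_sub _ _).trans (by linarith)
  have h2 : |x| ≤ |x - (ρ + 1 / 2)| + (ρ + 1 / 2) := by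
    have h3 : x = (x - (ρ + 1 / 2)) + (ρ + 1 / 2) := by ring
    calc |x| = |(x - (ρ + 1 / 2)) + (ρ + 1 / 2)| := by rw [← h3]
      _ ≤ |x - (ρ + 1 / 2)| + |(ρ : ℝ) + 1 / 2| := abs_add_le _ _
      _ = _ := by rw [abs_of_nonneg (by positivity : (0 : ℝ) ≤ (ρ : ℝ) + 1 / 2)]
  have h3 : 1 ≤ ⌊|x - (ρ + 1 / 2)|⌋₊ := Nat.le_floor (by exact_mod_cast h)
  have h3' : (1 : ℝ) ≤ (⌊|x - (ρ + 1 / 2)|⌋₊ : ℝ) := by exact_mod_cast h3
  have h4 := Nat.lt_floor_add_one |x - (ρ + 1 / 2)|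
  have h5 : (0 : ℝ) ≤ ρ := by positivity
  nlinarith

section
variable {K : Type} [Field K] [NumberField K] {J : Type} [Fintype J] [DecidableEq J] (𝓕 : Family K J)
variable {ι : Type} [Fintype ι] [DecidableEq ι] (ω : Module.Basis ι ℤ (𝓞 K))

/-- The normalized deviation. -/
noncomputable def dev (Z : ℕ) (t : Fin 2 ⊕ J → 𝓞 K) : ℝ :=
  |Real.log (bsd Z (𝓕.member t)) / Real.log (zetaProd K Z) - (𝓕.rk + 1 / 2)|

theorem dev_tail (k : ℕ) :
    ∃ C : ℕ, ∃ A : ℝ, 0 < A ∧ ∃ Z₀ : ℕ, ∀ Z : ℕ, Z₀ ≤ Z → ∀ H : Fin 2 ⊕ J → ℕ, (∀ j, Z ^ C ≤ H j) → ∀ a : ℝ, 0 < a →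
      prop ω H 𝓕.smooth (fun t => a ≤ dev 𝓕 Z t) ≤ A / (a ^ (2 * k) * Real.log (zetaProd K Z) ^ k) := by
  obtain ⟨C, A, hA, Z₀, hZ₀⟩ := Run7.h876.PW.pw_tail_pow ω (bsdData 𝓕) (fun Z t => bsd Z (𝓕.member t)) (bsd_eq 𝓕)
    (thin_smooth 𝓕 ω) k
  obtain ⟨Z₁, hZ₁⟩ := Filter.eventually_atTop.1 ((VZ_atTop (K := K)).eventually_gt_atTop 0)
  refine ⟨C, A, hA, max Z₀ Z₁, fun Z hZ H hH a ha => ?_⟩
  have h := hZ₀ Z ((le_max_left _ _).trans hZ) H hH a ha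
  have hV : 0 < Real.log (zetaProd K Z) := by
    rw [log_zetaProd]
    exact hZ₁ Z ((le_max_right _ _).trans hZ)
  have e2 : (bsdData 𝓕).m = 𝓕.rk + 1 / 2 := rfl
  refine (prop_mono ω H fun t ht => ?_).trans h
  unfold dev at ht
  rw [e2]
  have e3 : Real.log (bsd Z (𝓕.member t)) - (𝓕.rk + 1 / 2) * Real.log (zetaProd K Z) =
      (Real.log (bsd Z (𝓕.member t)) / Real.log (zetaProd K Z) - (𝓕.rk + 1 / 2)) * Real.log (zetaProd K Z) := by
    field_simp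
  rw [e3, abs_mul, abs_of_pos hV]
  exact mul_le_mul_of_nonneg_right ht hV.le

/-- The proportion of the members with the exponent below the middle. -/
theorem below {ε : ℝ} (hε : 0 < ε) :
    ∃ C Z₀ : ℕ, ∀ Z : ℕ, Z₀ ≤ Z → ∀ H : Fin 2 ⊕ J → ℕ, (∀ j, Z ^ C ≤ H j) →
      |prop ω H 𝓕.smooth (fun t => Real.log (bsd Z (𝓕.member t)) / Real.log (zetaProd K Z) < 𝓕.rk + 1 / 2) - 1 / 2| ≤ ε := by
  obtain ⟨η, hη, hη2⟩ : ∃ η : ℝ, 0 < η ∧ 1 / 2 - ε / 2 ≤ Phi (-η) := by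
    have h1 := Phi_cont.tendsto (0 : ℝ)
    rw [Phi_zero] at h1
    have h2 := h1.eventually (lt_mem_nhds (show 1 / 2 - ε / 2 < (1 / 2 : ℝ) by linarith))
    obtain ⟨r, hr, hr2⟩ := Metric.eventually_nhds_iff.1 h2
    refine ⟨r / 2, by positivity, (hr2 ?_).le⟩
    rw [dist_zero_right, norm_neg, Real.norm_eq_abs, abs_of_pos (by positivity)]
    linarith
  obtain ⟨C₁, Z₁, h₁⟩ := bs_clt2 𝓕 ω 0 (ε := ε / 2) (by positivity)
  obtain ⟨C₂, Z₂, h₂⟩ := bs_clt2 𝓕 ω (-η) (ε := ε / 2) (by positivity)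
  obtain ⟨Z₃, h₃⟩ := Filter.eventually_atTop.1 ((VZ_atTop (K := K)).eventually_gt_atTop 0)
  refine ⟨C₁ + C₂, max (max Z₁ Z₂) (max Z₃ 1), fun Z hZ H hH => ?_⟩
  have hZ1 : 1 ≤ Z := by omega
  have hV : 0 < Real.log (zetaProd K Z) := by
    rw [log_zetaProd]
    exact h₃ Z (by omega)
  have g1 := h₁ Z (by omega) H fun j => le_trans (Nat.pow_le_pow_right hZ1 (by omega)) (hH j)
  have g2 := h₂ Z (by omega) H fun j => le_trans (Nat.pow_le_pow_right hZ1 (by omega)) (hH j)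
  rw [Phi_zero, abs_le] at g1
  rw [abs_le] at g2
  have k1 : prop ω H 𝓕.smooth (fun t => Real.log (bsd Z (𝓕.member t)) / Real.log (zetaProd K Z) < 𝓕.rk + 1 / 2) ≤
      prop ω H 𝓕.smooth (fun t => Real.log (bsd Z (𝓕.member t)) ≤
        (𝓕.rk + 1 / 2) * Real.log (zetaProd K Z) + 0 * Real.sqrt (Real.log (zetaProd K Z))) := by
    refine prop_mono ω H fun t ht => ?_
    rw [zero_mul, add_zero]
    rw [div_lt_iff₀ hV] at ht
    exact ht.le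
  have k2 : prop ω H 𝓕.smooth (fun t => Real.log (bsd Z (𝓕.member t)) ≤
        (𝓕.rk + 1 / 2) * Real.log (zetaProd K Z) + -η * Real.sqrt (Real.log (zetaProd K Z))) ≤
      prop ω H 𝓕.smooth (fun t => Real.log (bsd Z (𝓕.member t)) / Real.log (zetaProd K Z) < 𝓕.rk + 1 / 2) := by
    refine prop_mono ω H fun t ht => ?_
    rw [div_lt_iff₀ hV]
    have : 0 < η * Real.sqrt (Real.log (zetaProd K Z)) := mul_pos hη (Real.sqrt_pos.2 hV)
    linarith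
  rw [abs_le]
  constructor <;> linarith [g1.1, g1.2, g2.1, g2.2]

/-- **One half and one half.** -/
theorem halves {ε : ℝ} (hε : 0 < ε) :
    ∃ C Z₀ : ℕ, ∀ Z : ℕ, Z₀ ≤ Z → ∀ H : Fin 2 ⊕ J → ℕ, (∀ j, Z ^ C ≤ H j) →
      |prop ω H 𝓕.smooth (fun t => rankGuess Z (𝓕.member t) = (𝓕.rk : ℤ)) - 1 / 2| ≤ ε ∧
      |prop ω H 𝓕.smooth (fun t => rankGuess Z (𝓕.member t) = (𝓕.rk : ℤ) + 1) - 1 / 2| ≤ ε := by
  classical
  obtain ⟨C₁, Z₁, h₁⟩ := below 𝓕 ω (ε := ε / 2) (by positivity)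
  obtain ⟨C₂, A, hA, Z₂, h₂⟩ := dev_tail 𝓕 ω 1
  obtain ⟨Z₃, h₃⟩ := Filter.eventually_atTop.1 ((VZ_atTop (K := K)).eventually_ge_atTop (max 1 (2 * A / ε)))
  obtain ⟨Z₄, h₄⟩ := Run7.h876.PW.nonempty_thick ω (thin_smooth 𝓕 ω)
  refine ⟨C₁ + C₂ + 1, max (max Z₁ Z₂) (max (max Z₃ Z₄) 1), fun Z hZ H hH => ?_⟩
  have hZ1 : 1 ≤ Z := by omega
  have hV3 := h₃ Z (by omega)
  rw [← log_zetaProd] at hV3
  obtain ⟨V, hVd⟩ : ∃ V, V = Real.log (zetaProd K Z) := ⟨_, rfl⟩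
  have hV1 : 1 ≤ V := by rw [hVd]; exact (le_max_left _ _).trans hV3
  have hV2 : 2 * A ≤ V * ε := by
    have := (le_max_right _ _).trans hV3
    rwa [div_le_iff₀ hε, ← hVd] at this
  have g1 := h₁ Z (by omega) H fun j => le_trans (Nat.pow_le_pow_right hZ1 (by omega)) (hH j)
  have g2 := h₂ Z (by omega) H (fun j => le_trans (Nat.pow_le_pow_right hZ1 (by omega)) (hH j)) 1 one_pos
  have hne := h₄ Z (by omega) H fun j => le_trans (by
    calc Z = Z ^ 1 := (pow_one Z).symm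
      _ ≤ _ := Nat.pow_le_pow_right hZ1 (by omega)) (hH j)
  have hc := prop_compl (G := 𝓕.smooth) ω H hne (fun t => Real.log (bsd Z (𝓕.member t)) / Real.log (zetaProd K Z) < 𝓕.rk + 1 / 2)
  have g3 : prop ω H 𝓕.smooth (fun t => 1 ≤ dev 𝓕 Z t) ≤ ε / 2 := by
    refine g2.trans ?_
    rw [one_pow, one_mul, pow_one, ← hVd, div_le_iff₀ (by linarith)]
    linarith
  rw [abs_le] at g1
  -- left
  have a1 : prop ω H 𝓕.smooth (fun t => rankGuess Z (𝓕.member t) = (𝓕.rk : ℤ)) ≤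
      prop ω H 𝓕.smooth (fun t => Real.log (bsd Z (𝓕.member t)) / Real.log (zetaProd K Z) < 𝓕.rk + 1 / 2) :=
    prop_mono ω H fun t ht => round_eq_left _ _ ht
  have a2 : prop ω H 𝓕.smooth (fun t => Real.log (bsd Z (𝓕.member t)) / Real.log (zetaProd K Z) < 𝓕.rk + 1 / 2) ≤
      prop ω H 𝓕.smooth (fun t => rankGuess Z (𝓕.member t) = (𝓕.rk : ℤ)) + prop ω H 𝓕.smooth (fun t => 1 ≤ dev 𝓕 Z t) := by
    refine (prop_mono ω H fun t ht => ?_).trans (prop_or ω H _ _)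
    by_contra hcon
    rw [not_or] at hcon
    refine hcon.2 (round_facts _ _ ⟨hcon.1, fun h => ?_⟩)
    exact absurd ht (not_lt.2 (round_eq_right _ _ h))
  have a3 : prop ω H 𝓕.smooth (fun t => rankGuess Z (𝓕.member t) = (𝓕.rk : ℤ) + 1) ≤
      prop ω H 𝓕.smooth (fun t => ¬ (Real.log (bsd Z (𝓕.member t)) / Real.log (zetaProd K Z) < 𝓕.rk + 1 / 2)) :=
    prop_mono ω H fun t ht => not_lt.2 (round_eq_right _ _ ht)
  have a4 : prop ω H 𝓕.smooth (fun t => ¬ (Real.log (bsd Z (𝓕.member t)) / Real.log (zetaProd K Z) < 𝓕.rk + 1 / 2)) ≤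
      prop ω H 𝓕.smooth (fun t => rankGuess Z (𝓕.member t) = (𝓕.rk : ℤ) + 1) + prop ω H 𝓕.smooth (fun t => 1 ≤ dev 𝓕 Z t) := by
    refine (prop_mono ω H fun t ht => ?_).trans (prop_or ω H _ _)
    by_contra hcon
    rw [not_or] at hcon
    refine hcon.2 (round_facts _ _ ⟨fun h => ?_, hcon.1⟩)
    exact ht (round_eq_left _ _ h)
  rw [abs_le, abs_le]
  refine ⟨⟨?_, ?_⟩, ?_, ?_⟩ <;> linarith [g1.1, g1.2]

/-- **The law of the nearest integer, with all moments.** -/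
theorem law (k : ℕ) {ε : ℝ} (hε : 0 < ε) :
    ∃ C Z₀ : ℕ, ∀ Z : ℕ, Z₀ ≤ Z → ∀ H : Fin 2 ⊕ J → ℕ, (∀ j, Z ^ C ≤ H j) →
      ∀ g : ℤ → ℝ, (∀ n, |g n| ≤ (1 + |(n : ℝ)|) ^ k) →
        |avgOn ω H 𝓕.smooth (fun t => g (rankGuess Z (𝓕.member t))) - (g 𝓕.rk + g (𝓕.rk + 1)) / 2| ≤ ε := by
  classical
  obtain ⟨B, hB⟩ : ∃ B : ℝ, B = (2 * ((𝓕.rk : ℝ) + 3)) ^ k := ⟨_, rfl⟩
  have hB0 : 0 < B := by rw [hB]; positivity
  obtain ⟨C₁, Z₁, h₁⟩ := halves 𝓕 ω (ε := ε / (4 * B)) (by positivity)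
  obtain ⟨C₂, A, hA, Z₂, h₂⟩ := dev_tail 𝓕 ω (k + 1)
  obtain ⟨Z₃, h₃⟩ := Filter.eventually_atTop.1 ((VZ_atTop (K := K)).eventually_ge_atTop (max 1 (4 * B * A / ε)))
  refine ⟨C₁ + C₂, max (max Z₁ Z₂) (max Z₃ 1), fun Z hZ H hH g hg => ?_⟩
  have hZ1 : 1 ≤ Z := by omega
  have hV3 := h₃ Z (by omega)
  rw [← log_zetaProd] at hV3
  have g1 := h₁ Z (by omega) H fun j => le_trans (Nat.pow_le_pow_right hZ1 (by omega)) (hH j)
  have g2 := h₂ Z (by omega) H (fun j => le_trans (Nat.pow_le_pow_right hZ1 (by omega)) (hH j))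
  obtain ⟨V, hVd⟩ : ∃ V, V = Real.log (zetaProd K Z) := ⟨_, rfl⟩
  rw [← hVd] at g2 hV3
  have hV1 : 1 ≤ V := (le_max_left _ _).trans hV3
  have hV2 : 4 * B * A ≤ V * ε := by
    have := (le_max_right _ _).trans hV3
    rwa [div_le_iff₀ hε] at this
  -- the tail
  have hlay := avg_layers (G := 𝓕.smooth) ω H k (dev 𝓕 Z) (fun t => abs_nonneg _) (A := A / V) (by positivity) (fun a ha => by
    refine (g2 a (by linarith)).trans ?_
    rw [div_div]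
    refine div_le_div_of_nonneg_left hA.le (by positivity) ?_
    rw [mul_comm V]
    refine mul_le_mul (pow_le_pow_right₀ ha (by omega)) ?_ (by positivity) (by positivity)
    calc V = V ^ 1 := (pow_one V).symm
      _ ≤ V ^ (k + 1) := pow_le_pow_right₀ hV1 (by omega))
  have hrho : (0 : ℝ) ≤ 𝓕.rk := by positivity
  have e0 : avgOn ω H 𝓕.smooth (fun t => g (rankGuess Z (𝓕.member t))) =
      g 𝓕.rk * prop ω H 𝓕.smooth (fun t => rankGuess Z (𝓕.member t) = (𝓕.rk : ℤ)) +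
      g (𝓕.rk + 1) * prop ω H 𝓕.smooth (fun t => rankGuess Z (𝓕.member t) = (𝓕.rk : ℤ) + 1) +
      avgOn ω H 𝓕.smooth (fun t => if rankGuess Z (𝓕.member t) ≠ (𝓕.rk : ℤ) ∧ rankGuess Z (𝓕.member t) ≠ (𝓕.rk : ℤ) + 1 then
        g (rankGuess Z (𝓕.member t)) else 0) := by
    rw [← avgOn_prop, ← avgOn_prop, ← avgOn_add, ← avgOn_add]
    congr 1
    funext t
    by_cases c1 : rankGuess Z (𝓕.member t) = (𝓕.rk : ℤ)
    · rw [if_pos c1, if_neg (by rw [c1]; omega), if_neg (by tauto), c1]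
      ring
    · by_cases c2 : rankGuess Z (𝓕.member t) = (𝓕.rk : ℤ) + 1
      · rw [if_neg c1, if_pos c2, if_neg (by tauto), c2]
        ring
      · rw [if_neg c1, if_neg c2, if_pos ⟨c1, c2⟩]
        ring
  have e1 : |avgOn ω H 𝓕.smooth (fun t => if rankGuess Z (𝓕.member t) ≠ (𝓕.rk : ℤ) ∧ rankGuess Z (𝓕.member t) ≠ (𝓕.rk : ℤ) + 1 then
        g (rankGuess Z (𝓕.member t)) else 0)| ≤ B * (2 * (A / V)) := by
    refine (avgOn_abs ω H _).trans ?_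
    refine le_trans ?_ (mul_le_mul_of_nonneg_left hlay hB0.le)
    rw [← avgOn_smul]
    refine avgOn_mono ω H fun t => ?_
    by_cases c : rankGuess Z (𝓕.member t) ≠ (𝓕.rk : ℤ) ∧ rankGuess Z (𝓕.member t) ≠ (𝓕.rk : ℤ) + 1
    · have hd : 1 ≤ dev 𝓕 Z t := round_facts _ _ c
      rw [if_pos c, if_pos hd, mul_one, hB, ← mul_pow]
      refine (hg _).trans (pow_le_pow_left₀ (by positivity) ?_ k)
      exact abs_round_le 𝓕.rk _ hd
    · rw [if_neg c, abs_zero]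
      positivity
  have hgr : |g 𝓕.rk| ≤ B := by
    refine (hg _).trans ?_
    rw [hB]
    refine pow_le_pow_left₀ (by positivity) ?_ k
    push_cast
    rw [abs_of_nonneg hrho]
    linarith
  have hgr2 : |g (𝓕.rk + 1)| ≤ B := by
    refine (hg _).trans ?_
    rw [hB]
    refine pow_le_pow_left₀ (by positivity) ?_ k
    push_cast
    rw [abs_of_nonneg (by linarith)]
    linarith
  obtain ⟨p, hp⟩ : ∃ p, p = prop ω H 𝓕.smooth (fun t => rankGuess Z (𝓕.member t) = (𝓕.rk : ℤ)) := ⟨_, rfl⟩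
  obtain ⟨q, hq⟩ : ∃ q, q = prop ω H 𝓕.smooth (fun t => rankGuess Z (𝓕.member t) = (𝓕.rk : ℤ) + 1) := ⟨_, rfl⟩
  rw [← hp, ← hq] at g1
  rw [e0, ← hp, ← hq]
  have e2 : |g 𝓕.rk * (p - 1 / 2)| ≤ ε / 4 := by
    rw [abs_mul]
    calc |g 𝓕.rk| * |p - 1 / 2| ≤ B * (ε / (4 * B)) := mul_le_mul hgr g1.1 (abs_nonneg _) hB0.le
      _ = ε / 4 := by field_simp
  have e3 : |g (𝓕.rk + 1) * (q - 1 / 2)| ≤ ε / 4 := by
    rw [abs_mul]
    calc |g (𝓕.rk + 1)| * |q - 1 / 2| ≤ B * (ε / (4 * B)) := mul_le_mul hgr2 g1.2 (abs_nonneg _) hB0.le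
      _ = ε / 4 := by field_simp
  have e4 : B * (2 * (A / V)) ≤ ε / 2 := by
    rw [← mul_assoc, mul_div_assoc', div_le_iff₀ (by linarith)]
    linarith
  have e5 := e1.trans e4
  rw [abs_le] at e2 e3 e5 ⊢
  constructor <;> linarith [e2.1, e2.2, e3.1, e3.2, e5.1, e5.2]

end

end Run7.h61.LD
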