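import Pool.Agent.Run7.h9.BS.Fin2

/-!
# Exact large deviations from mod-Gaussian convergence
-/

set_option autoImplicit false
set_option linter.unusedSectionVars false

namespace Run7.h61.LD

open NumberField IsDedekindDomain Finset Filter Topology
open Run7.h876.MM (nv kv SZ instFieldKv instFintypeKv)
open Run7.h876.EN
open Run7.h9.BS

section
variable {α : Type*} (S : Finset α) (X : α → ℝ)

/-- the exponential mean -/
noncomputable def em (κ : ℝ) : ℝ := (∑ c ∈ S, Real.exp (κ * X c)) / (S.card : ℝ)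

open Classical in
/-- the window -/
theorem window {y δ η V κ : ℝ} (hη : 0 ≤ η) :
    em S X κ ≤ ((S.filter fun c => |X c - y * V| ≤ δ * V).card : ℝ) / (S.card : ℝ) * Real.exp (κ * y * V + |κ| * δ * V) +
      Real.exp (-(η * (y + δ) * V)) * em S X (κ + η) + Real.exp (η * (y - δ) * V) * em S X (κ - η) := by
  unfold em
  have h : ∀ c ∈ S, Real.exp (κ * X c) ≤ (if |X c - y * V| ≤ δ * V then Real.exp (κ * y * V + |κ| * δ * V) else 0) +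
      Real.exp (-(η * (y + δ) * V)) * Real.exp ((κ + η) * X c) + Real.exp (η * (y - δ) * V) * Real.exp ((κ - η) * X c) := by
    intro c _
    rw [← Real.exp_add, ← Real.exp_add]
    have p1 := Real.exp_pos (-(η * (y + δ) * V) + (κ + η) * X c)
    have p2 := Real.exp_pos (η * (y - δ) * V + (κ - η) * X c)
    by_cases hc : |X c - y * V| ≤ δ * V
    · rw [if_pos hc]
      have h1 : κ * X c ≤ κ * y * V + |κ| * δ * V := by
        have h2 : κ * (X c - y * V) ≤ |κ| * (δ * V) := by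
          refine (le_abs_self _).trans ?_
          rw [abs_mul]
          exact mul_le_mul_of_nonneg_left hc (abs_nonneg _)
        linarith
      have := Real.exp_le_exp.2 h1
      linarith
    · rw [if_neg hc, zero_add]
      rw [not_le, lt_abs] at hc
      rcases hc with hc | hc
      · have h1 : κ * X c ≤ -(η * (y + δ) * V) + (κ + η) * X c := by
          have : 0 ≤ η * (X c - y * V - δ * V) := mul_nonneg hη (by linarith)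
          linarith
        have := Real.exp_le_exp.2 h1
        linarith
      · have h1 : κ * X c ≤ η * (y - δ) * V + (κ - η) * X c := by
          have : 0 ≤ η * (-(X c - y * V) - δ * V) := mul_nonneg hη (by linarith)
          linarith
        have := Real.exp_le_exp.2 h1
        linarith
  have h2 := Finset.sum_le_sum h
  rw [Finset.sum_add_distrib, Finset.sum_add_distrib, ← Finset.mul_sum, ← Finset.mul_sum, ← Finset.sum_filter, Finset.sum_const,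
    nsmul_eq_mul] at h2
  refine (div_le_div_of_nonneg_right h2 (Nat.cast_nonneg _)).trans (le_of_eq ?_)
  rw [add_div, add_div]
  ring

end

section
variable {K : Type} [Field K] [NumberField K]
variable {ι : Type} [Fintype ι] [DecidableEq ι] {J : Type} [Fintype J] [DecidableEq J]
variable (𝓛 : LocalData K J) (ω : Module.Basis ι ℤ (𝓞 K)) {G : Set (J → 𝓞 K)} {Cb : ℝ}

open Classical in
theorem mean_em (H : J → ℕ) (Y : (J → 𝓞 K) → ℝ) (κ : ℝ) :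
    mean ω H G (fun t => Complex.exp ((κ : ℂ) * Y t)) =
      ((em ((box ι H).filter fun c => tuple ω c ∈ G) (fun c => Y (tuple ω c)) κ : ℝ) : ℂ) := by
  unfold mean em
  push_cast
  rfl

open Classical in
/-- the exponential moments -/
theorem moments (hCb : 0 ≤ Cb) (hG : Thin ω G Cb) {θ : ℝ} (hθ : 0 < θ) (κ : ℝ) :
    ∃ r : ℝ, 0 < r ∧ ∃ Z₀ : ℕ, ∀ Z : ℕ, Z₀ ≤ Z → ∀ H : J → ℕ, (∀ j, Real.exp ((Z : ℝ) ^ (1 + θ)) ≤ H j) →
      r / 2 * Real.exp ((κ * 𝓛.m + κ ^ 2 * 𝓛.D / 2) * VZ K Z) ≤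
        em ((box ι H).filter fun c => tuple ω c ∈ G) (fun c => 𝓛.W Z (tuple ω c)) κ ∧
      em ((box ι H).filter fun c => tuple ω c ∈ G) (fun c => 𝓛.W Z (tuple ω c)) κ ≤
        2 * r * Real.exp ((κ * 𝓛.m + κ ^ 2 * 𝓛.D / 2) * VZ K Z) := by
  obtain ⟨r, hr0, hr⟩ := 𝓛.Psi_real κ
  obtain ⟨Z₀, hZ₀⟩ := 𝓛.modGauss ω hCb hG (R := |κ|) (abs_nonneg _) hθ (ε := r / 2) (by positivity)
  refine ⟨r, hr0, Z₀, fun Z hZ H hH => ?_⟩
  have h1 := hZ₀ Z hZ H hH κ (by rw [Complex.norm_real, Real.norm_eq_abs])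
  rw [mean_em, hr] at h1
  obtain ⟨E, hE⟩ : ∃ E : ℝ, E = em ((box ι H).filter fun c => tuple ω c ∈ G) (fun c => 𝓛.W Z (tuple ω c)) κ := ⟨_, rfl⟩
  obtain ⟨M, hM⟩ : ∃ M : ℝ, M = (κ * 𝓛.m + κ ^ 2 * 𝓛.D / 2) * VZ K Z := ⟨_, rfl⟩
  rw [← hE, ← hM]
  have e3 : Complex.exp (-(((κ : ℂ) * 𝓛.m + (κ : ℂ) ^ 2 * 𝓛.D / 2) * VZ K Z)) = ((Real.exp (-M) : ℝ) : ℂ) := by
    rw [hM]; push_cast; rfl
  rw [← hE, e3, ← Complex.ofReal_mul, ← Complex.ofReal_sub, Complex.norm_real, Real.norm_eq_abs, abs_le] at h1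
  have e4 : E = E * Real.exp (-M) * Real.exp M := by
    rw [mul_assoc, ← Real.exp_add, neg_add_cancel, Real.exp_zero, mul_one]
  have hpos := Real.exp_pos M
  constructor
  · rw [e4]
    exact mul_le_mul_of_nonneg_right (by linarith [h1.1]) hpos.le
  · rw [e4]
    exact mul_le_mul_of_nonneg_right (by linarith [h1.2]) hpos.le

open Classical in
theorem prop_eq (H : J → ℕ) (P : (J → 𝓞 K) → Prop) :
    prop ω H G P = ((((box ι H).filter fun c => tuple ω c ∈ G).filter fun c => P (tuple ω c)).card : ℝ) /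
      (((box ι H).filter fun c => tuple ω c ∈ G).card : ℝ) := by
  unfold prop
  rw [Finset.filter_filter]

/-- **The lower bound in a window.** -/
theorem lower (hCb : 0 ≤ Cb) (hG : Thin ω G Cb) {θ : ℝ} (hθ : 0 < θ) (y : ℝ) {δ : ℝ} (hδ : 0 < δ) :
    ∃ c : ℝ, 0 < c ∧ ∃ Z₀ : ℕ, ∀ Z : ℕ, Z₀ ≤ Z → ∀ H : J → ℕ, (∀ j, Real.exp ((Z : ℝ) ^ (1 + θ)) ≤ H j) →
      c * Real.exp (-(((y - 𝓛.m) ^ 2 + 2 * |y - 𝓛.m| * δ) / (2 * 𝓛.D) * VZ K Z)) ≤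
        prop ω H G (fun t => |𝓛.W Z t - y * VZ K Z| ≤ δ * VZ K Z) := by
  classical
  have hD := 𝓛.D_pos
  obtain ⟨κ, hκ⟩ : ∃ κ, κ = (y - 𝓛.m) / 𝓛.D := ⟨_, rfl⟩
  obtain ⟨η, hη⟩ : ∃ η, η = δ / 𝓛.D := ⟨_, rfl⟩
  have hη0 : 0 < η := by rw [hη]; positivity
  obtain ⟨r, hr, Z₁, h₁⟩ := moments 𝓛 ω hCb hG hθ κ
  obtain ⟨r', hr', Z₂, h₂⟩ := moments 𝓛 ω hCb hG hθ (κ + η)
  obtain ⟨r'', hr'', Z₃, h₃⟩ := moments 𝓛 ω hCb hG hθ (κ - η)
  have hlim : Tendsto (fun Z => (2 * r' + 2 * r'') * Real.exp (-(δ ^ 2 / (2 * 𝓛.D) * VZ K Z))) atTop (𝓝 0) := by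
    have h1 : Tendsto (fun Z => δ ^ 2 / (2 * 𝓛.D) * VZ K Z) atTop atTop := (VZ_atTop (K := K)).const_mul_atTop (by positivity)
    have h2 := (Real.tendsto_exp_atBot.comp (tendsto_neg_atTop_atBot.comp h1)).const_mul (2 * r' + 2 * r'')
    rw [mul_zero] at h2
    exact h2
  obtain ⟨Z₄, h₄⟩ := Filter.eventually_atTop.1 (hlim.eventually (gt_mem_nhds (show (0 : ℝ) < r / 4 by positivity)))
  refine ⟨r / 4, by positivity, max (max Z₁ Z₂) (max Z₃ Z₄), fun Z hZ H hH => ?_⟩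
  have g1 := (h₁ Z (by omega) H hH).1
  have g2 := (h₂ Z (by omega) H hH).2
  have g3 := (h₃ Z (by omega) H hH).2
  have g4 := h₄ Z (by omega)
  have hw := window ((box ι H).filter fun c => tuple ω c ∈ G) (fun c => 𝓛.W Z (tuple ω c)) (y := y) (δ := δ) (η := η)
    (V := VZ K Z) (κ := κ) hη0.le
  rw [← prop_eq (G := G) ω H (fun t => |𝓛.W Z t - y * VZ K Z| ≤ δ * VZ K Z)] at hw
  obtain ⟨P, hP⟩ : ∃ P, P = prop ω H G (fun t => |𝓛.W Z t - y * VZ K Z| ≤ δ * VZ K Z) := ⟨_, rfl⟩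
  obtain ⟨V, hV⟩ : ∃ V, V = VZ K Z := ⟨_, rfl⟩
  obtain ⟨M, hM⟩ : ∃ M : ℝ, M = (κ * 𝓛.m + κ ^ 2 * 𝓛.D / 2) * V := ⟨_, rfl⟩
  rw [← hV, ← hM] at g1
  rw [← hV] at g2 g3 g4
  rw [← hP, ← hV] at hw
  rw [← hP, ← hV]
  have hκD : κ * 𝓛.D = y - 𝓛.m := by rw [hκ]; field_simp
  have hηD : η * 𝓛.D = δ := by rw [hη]; field_simp
  have t2 : Real.exp (-(η * (y + δ) * V)) * Real.exp (((κ + η) * 𝓛.m + (κ + η) ^ 2 * 𝓛.D / 2) * V) =
      Real.exp M * Real.exp (-(δ ^ 2 / (2 * 𝓛.D) * V)) := by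
    rw [← Real.exp_add, ← Real.exp_add, hM]
    congr 1
    have e : δ ^ 2 / (2 * 𝓛.D) = η * δ / 2 := by rw [hη]; field_simp
    rw [e]
    have e2 : (κ + η) ^ 2 * 𝓛.D / 2 = κ ^ 2 * 𝓛.D / 2 + η * (κ * 𝓛.D) + η * (η * 𝓛.D) / 2 := by ring
    rw [e2, hκD, hηD]
    ring
  have t3 : Real.exp (η * (y - δ) * V) * Real.exp (((κ - η) * 𝓛.m + (κ - η) ^ 2 * 𝓛.D / 2) * V) =
      Real.exp M * Real.exp (-(δ ^ 2 / (2 * 𝓛.D) * V)) := by
    rw [← Real.exp_add, ← Real.exp_add, hM]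
    congr 1
    have e : δ ^ 2 / (2 * 𝓛.D) = η * δ / 2 := by rw [hη]; field_simp
    rw [e]
    have e2 : (κ - η) ^ 2 * 𝓛.D / 2 = κ ^ 2 * 𝓛.D / 2 - η * (κ * 𝓛.D) + η * (η * 𝓛.D) / 2 := by ring
    rw [e2, hκD, hηD]
    ring
  have k2 : Real.exp (-(η * (y + δ) * V)) * em ((box ι H).filter fun c => tuple ω c ∈ G) (fun c => 𝓛.W Z (tuple ω c)) (κ + η) ≤
      2 * r' * (Real.exp M * Real.exp (-(δ ^ 2 / (2 * 𝓛.D) * V))) := by
    rw [← t2]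
    calc _ ≤ Real.exp (-(η * (y + δ) * V)) * (2 * r' * Real.exp (((κ + η) * 𝓛.m + (κ + η) ^ 2 * 𝓛.D / 2) * V)) :=
          mul_le_mul_of_nonneg_left g2 (Real.exp_pos _).le
      _ = _ := by ring
  have k3 : Real.exp (η * (y - δ) * V) * em ((box ι H).filter fun c => tuple ω c ∈ G) (fun c => 𝓛.W Z (tuple ω c)) (κ - η) ≤
      2 * r'' * (Real.exp M * Real.exp (-(δ ^ 2 / (2 * 𝓛.D) * V))) := by
    rw [← t3]
    calc _ ≤ Real.exp (η * (y - δ) * V) * (2 * r'' * Real.exp (((κ - η) * 𝓛.m + (κ - η) ^ 2 * 𝓛.D / 2) * V)) :=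
          mul_le_mul_of_nonneg_left g3 (Real.exp_pos _).le
      _ = _ := by ring
  have k4 : r / 4 * Real.exp M ≤ P * Real.exp (κ * y * V + |κ| * δ * V) := by
    have h5 : (2 * r' + 2 * r'') * Real.exp (-(δ ^ 2 / (2 * 𝓛.D) * V)) * Real.exp M ≤ r / 4 * Real.exp M :=
      mul_le_mul_of_nonneg_right g4.le (Real.exp_pos _).le
    have h6 : 2 * r' * (Real.exp M * Real.exp (-(δ ^ 2 / (2 * 𝓛.D) * V))) + 2 * r'' * (Real.exp M * Real.exp (-(δ ^ 2 / (2 * 𝓛.D) * V))) =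
      (2 * r' + 2 * r'') * Real.exp (-(δ ^ 2 / (2 * 𝓛.D) * V)) * Real.exp M := by ring
    linarith
  have e5 : Real.exp (-(((y - 𝓛.m) ^ 2 + 2 * |y - 𝓛.m| * δ) / (2 * 𝓛.D) * V)) =
      Real.exp M * Real.exp (-(κ * y * V + |κ| * δ * V)) := by
    rw [← Real.exp_add, hM]
    congr 1
    have h7 : |κ| = |y - 𝓛.m| / 𝓛.D := by rw [hκ, abs_div, abs_of_pos hD]
    have h8 : κ * 𝓛.m + κ ^ 2 * 𝓛.D / 2 - κ * y = -((y - 𝓛.m) ^ 2 / (2 * 𝓛.D)) := by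
      rw [hκ]
      field_simp
      ring
    have h9 : ((y - 𝓛.m) ^ 2 + 2 * |y - 𝓛.m| * δ) / (2 * 𝓛.D) = (y - 𝓛.m) ^ 2 / (2 * 𝓛.D) + |κ| * δ := by
      rw [h7]
      field_simp
    rw [h9]
    have h10 : (κ * 𝓛.m + κ ^ 2 * 𝓛.D / 2) * V + -(κ * y * V + |κ| * δ * V) = (κ * 𝓛.m + κ ^ 2 * 𝓛.D / 2 - κ * y) * V - |κ| * δ * V := by ring
    rw [h10, h8]
    ring
  rw [e5, ← mul_assoc]
  calc r / 4 * Real.exp M * Real.exp (-(κ * y * V + |κ| * δ * V)) ≤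
        P * Real.exp (κ * y * V + |κ| * δ * V) * Real.exp (-(κ * y * V + |κ| * δ * V)) :=
        mul_le_mul_of_nonneg_right k4 (Real.exp_pos _).le
    _ = P := by rw [mul_assoc, ← Real.exp_add, add_neg_cancel, Real.exp_zero, mul_one]

/-- **The upper bound.** -/
theorem upper (hCb : 0 ≤ Cb) (hG : Thin ω G Cb) {θ : ℝ} (hθ : 0 < θ) (y : ℝ) :
    ∃ C : ℝ, 0 < C ∧ ∃ Z₀ : ℕ, ∀ Z : ℕ, Z₀ ≤ Z → ∀ H : J → ℕ, (∀ j, Real.exp ((Z : ℝ) ^ (1 + θ)) ≤ H j) →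
      prop ω H G (fun t => 0 ≤ (y - 𝓛.m) * (𝓛.W Z t - y * VZ K Z)) ≤ C * Real.exp (-((y - 𝓛.m) ^ 2 / (2 * 𝓛.D) * VZ K Z)) := by
  have hD := 𝓛.D_pos
  obtain ⟨C, hC, Z₀, hZ₀⟩ := 𝓛.tail_aux ω hCb hG hθ ((y - 𝓛.m) / 𝓛.D)
  refine ⟨C, hC, Z₀, fun Z hZ H hH => ?_⟩
  have h := hZ₀ Z hZ H hH
  have e1 : ((y - 𝓛.m) / 𝓛.D) ^ 2 * 𝓛.D / 2 * VZ K Z = (y - 𝓛.m) ^ 2 / (2 * 𝓛.D) * VZ K Z := by field_simp
  rw [e1] at h
  refine le_trans (le_of_eq ?_) h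
  congr 1
  funext t
  have e2 : ((y - 𝓛.m) / 𝓛.D) ^ 2 * 𝓛.D * VZ K Z = (y - 𝓛.m) / 𝓛.D * ((y - 𝓛.m) * VZ K Z) := by field_simp
  rw [e2]
  have e3 : (y - 𝓛.m) / 𝓛.D * (𝓛.W Z t - 𝓛.m * VZ K Z) - (y - 𝓛.m) / 𝓛.D * ((y - 𝓛.m) * VZ K Z) =
      ((y - 𝓛.m) * (𝓛.W Z t - y * VZ K Z)) / 𝓛.D := by ring
  rw [eq_iff_iff, ← sub_nonneg (a := (y - 𝓛.m) / 𝓛.D * (𝓛.W Z t - 𝓛.m * VZ K Z)), e3]
  constructor
  · intro h; positivity
  · intro h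
    by_contra hc
    push Not at hc
    exact absurd h (not_le.2 (div_neg_of_neg_of_pos hc hD))

end

end Run7.h61.LD
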