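import Pool.Agent.Run7.h61.LD.Gen

/-!
# Exact large deviations: intervals and half-lines
-/

set_option autoImplicit false
set_option linter.unusedSectionVars false

namespace Run7.h61.LD

open NumberField IsDedekindDomain Finset Filter Topology
open Run7.h876.MM (nv kv SZ instFieldKv instFintypeKv)
open Run7.h876.EN
open Run7.h9.BS
open Run7.h9.BS.LocalData (prop_nonneg prop_mono)

section
variable {K : Type} [Field K] [NumberField K]
variable {ι : Type} [Fintype ι] [DecidableEq ι] {J : Type} [Fintype J] [DecidableEq J]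
variable (𝓛 : LocalData K J) (ω : Module.Basis ι ℤ (𝓞 K)) {G : Set (J → 𝓞 K)} {Cb : ℝ}

theorem prop_le_one (H : J → ℕ) (P : (J → 𝓞 K) → Prop) : prop ω H G P ≤ 1 := by
  classical
  unfold prop
  refine div_le_one_of_le₀ ?_ (by positivity)
  exact_mod_cast Finset.card_le_card (fun c hc => by
    rw [Finset.mem_filter] at hc ⊢
    exact ⟨hc.1, hc.2.1⟩)

theorem ldp_of (hCb : 0 ≤ Cb) (hG : Thin ω G Cb) {θ : ℝ} (hθ : 0 < θ) {d : ℝ} (hd : 0 ≤ d) (Q : ℕ → (J → 𝓞 K) → Prop)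
    (hlow : ∀ δ₀ : ℝ, 0 < δ₀ → ∃ δ y : ℝ, 0 < δ ∧ δ ≤ δ₀ ∧ |y - 𝓛.m| ≤ d + 2 * δ ∧
      ∀ Z t, 0 < VZ K Z → |𝓛.W Z t - y * VZ K Z| ≤ δ * VZ K Z → Q Z t)
    (hup : d = 0 ∨ ∃ y : ℝ, (y - 𝓛.m) ^ 2 = d ^ 2 ∧ ∀ Z t, Q Z t → 0 ≤ (y - 𝓛.m) * (𝓛.W Z t - y * VZ K Z))
    {ε : ℝ} (hε : 0 < ε) :
    ∃ Z₀ : ℕ, ∀ Z : ℕ, Z₀ ≤ Z → ∀ H : J → ℕ, (∀ j, Real.exp ((Z : ℝ) ^ (1 + θ)) ≤ H j) →
      0 < prop ω H G (Q Z) ∧ |Real.log (prop ω H G (Q Z)) / VZ K Z + d ^ 2 / (2 * 𝓛.D)| ≤ ε := by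
  have hD := 𝓛.D_pos
  obtain ⟨δ, y, hδ, hδ₀, hy, hQ⟩ := hlow (min 1 (ε * 𝓛.D / (6 * d + 8))) (by positivity)
  have hδ1 : δ ≤ 1 := hδ₀.trans (min_le_left _ _)
  have hδ2 : (6 * d + 8) * δ ≤ ε * 𝓛.D := by
    have h1 := hδ₀.trans (min_le_right _ _)
    rw [le_div_iff₀ (by positivity)] at h1
    linarith
  obtain ⟨c, hc, Z₁, h₁⟩ := lower 𝓛 ω hCb hG hθ y hδ
  obtain ⟨C, hC, Z₂, h₂⟩ : ∃ C : ℝ, 0 < C ∧ ∃ Z₂ : ℕ, ∀ Z : ℕ, Z₂ ≤ Z → ∀ H : J → ℕ, (∀ j, Real.exp ((Z : ℝ) ^ (1 + θ)) ≤ H j) →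
      prop ω H G (Q Z) ≤ C * Real.exp (-(d ^ 2 / (2 * 𝓛.D) * VZ K Z)) := by
    rcases hup with hd0 | ⟨y', hy', hQ'⟩
    · refine ⟨1, one_pos, 0, fun Z _ H _ => ?_⟩
      rw [hd0]
      simpa using prop_le_one ω H (Q Z)
    · obtain ⟨C, hC, Z₂, h₂⟩ := upper 𝓛 ω hCb hG hθ y'
      refine ⟨C, hC, Z₂, fun Z hZ H hH => ?_⟩
      rw [← hy']
      exact (prop_mono ω H fun t ht => hQ' Z t ht).trans (h₂ Z hZ H hH)
  obtain ⟨Z₃, h₃⟩ := Filter.eventually_atTop.1 ((VZ_atTop (K := K)).eventually_ge_atTop (max 1 (2 * (|Real.log c| + |Real.log C|) / ε)))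
  refine ⟨max Z₁ (max Z₂ Z₃), fun Z hZ H hH => ?_⟩
  have g1 := h₁ Z (by omega) H hH
  have g2 := h₂ Z (by omega) H hH
  have g3 := h₃ Z (by omega)
  obtain ⟨V, hV⟩ : ∃ V, V = VZ K Z := ⟨_, rfl⟩
  have hV1 : 1 ≤ V := by rw [hV]; exact (le_max_left _ _).trans g3
  have hV2 : 2 * (|Real.log c| + |Real.log C|) ≤ ε * V := by
    have h1 := (le_max_right _ _).trans g3
    rw [div_le_iff₀ hε, ← hV] at h1
    linarith
  have g4 := g1.trans (prop_mono ω H fun t ht => hQ Z t (by rw [← hV]; linarith) ht)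
  obtain ⟨P, hP⟩ : ∃ P, P = prop ω H G (Q Z) := ⟨_, rfl⟩
  rw [← hP, ← hV] at g4 g2
  rw [← hP, ← hV]
  have hP0 : 0 < P := lt_of_lt_of_le (mul_pos hc (Real.exp_pos _)) g4
  refine ⟨hP0, ?_⟩
  have l1 := Real.log_le_log (mul_pos hc (Real.exp_pos _)) g4
  rw [Real.log_mul hc.ne' (Real.exp_pos _).ne', Real.log_exp] at l1
  have l2 := Real.log_le_log hP0 g2
  rw [Real.log_mul hC.ne' (Real.exp_pos _).ne', Real.log_exp] at l2
  have hsq : (y - 𝓛.m) ^ 2 + 2 * |y - 𝓛.m| * δ ≤ d ^ 2 + (6 * d + 8) * δ := by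
    rw [← sq_abs]
    have h0 := abs_nonneg (y - 𝓛.m)
    nlinarith
  have h5 : ((y - 𝓛.m) ^ 2 + 2 * |y - 𝓛.m| * δ) / (2 * 𝓛.D) ≤ d ^ 2 / (2 * 𝓛.D) + ε / 2 := by
    rw [div_le_iff₀ (by positivity), add_mul, div_mul_cancel₀ _ (by positivity)]
    linarith
  have p1 := neg_abs_le (Real.log c)
  have p2 := le_abs_self (Real.log C)
  have p3 := abs_nonneg (Real.log c)
  have p4 := abs_nonneg (Real.log C)
  have hVpos : 0 < V := by linarith
  rw [abs_le]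
  constructor
  · rw [← sub_le_iff_le_add, le_div_iff₀ hVpos]
    have h6 := mul_le_mul_of_nonneg_right h5 hVpos.le
    nlinarith
  · rw [← le_sub_iff_add_le, div_le_iff₀ hVpos]
    nlinarith

/-- **Intervals.** -/
theorem interval (hCb : 0 ≤ Cb) (hG : Thin ω G Cb) {θ : ℝ} (hθ : 0 < θ) {a b : ℝ} (hab : a < b) {ε : ℝ} (hε : 0 < ε) :
    ∃ Z₀ : ℕ, ∀ Z : ℕ, Z₀ ≤ Z → ∀ H : J → ℕ, (∀ j, Real.exp ((Z : ℝ) ^ (1 + θ)) ≤ H j) →
      0 < prop ω H G (fun t => a * VZ K Z ≤ 𝓛.W Z t ∧ 𝓛.W Z t ≤ b * VZ K Z) ∧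
      |Real.log (prop ω H G (fun t => a * VZ K Z ≤ 𝓛.W Z t ∧ 𝓛.W Z t ≤ b * VZ K Z)) / VZ K Z +
        (max (max (a - 𝓛.m) (𝓛.m - b)) 0) ^ 2 / (2 * 𝓛.D)| ≤ ε := by
  refine ldp_of 𝓛 ω hCb hG hθ (le_max_right _ _) (fun Z t => a * VZ K Z ≤ 𝓛.W Z t ∧ 𝓛.W Z t ≤ b * VZ K Z) ?_ ?_ hε
  · intro δ₀ hδ₀
    refine ⟨min δ₀ ((b - a) / 2), max (a + min δ₀ ((b - a) / 2)) (min 𝓛.m (b - min δ₀ ((b - a) / 2))), lt_min hδ₀ (by linarith),
      min_le_left _ _, ?_, ?_⟩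
    · obtain ⟨δ, hδ⟩ : ∃ δ, δ = min δ₀ ((b - a) / 2) := ⟨_, rfl⟩
      rw [← hδ]
      have h1 : δ ≤ (b - a) / 2 := by rw [hδ]; exact min_le_right _ _
      have h2 : 0 < δ := by rw [hδ]; exact lt_min hδ₀ (by linarith)
      have m1 := le_max_left (max (a - 𝓛.m) (𝓛.m - b)) 0
      have m2 := le_max_left (a - 𝓛.m) (𝓛.m - b)
      have m3 := le_max_right (a - 𝓛.m) (𝓛.m - b)
      have m4 := le_max_right (max (a - 𝓛.m) (𝓛.m - b)) 0
      rcases le_total 𝓛.m (b - δ) with h | h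
      · rw [min_eq_left h]
        rcases le_total (a + δ) 𝓛.m with h' | h'
        · rw [max_eq_right h', sub_self, abs_zero]
          linarith
        · rw [max_eq_left h', abs_of_nonneg (by linarith)]
          linarith
      · rw [min_eq_right h, max_eq_right (by linarith), abs_of_nonpos (by linarith)]
        linarith
    · intro Z t hV' h
      have hV := hV'.le
      obtain ⟨δ, hδ⟩ : ∃ δ, δ = min δ₀ ((b - a) / 2) := ⟨_, rfl⟩
      rw [← hδ] at h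
      have h1 : δ ≤ (b - a) / 2 := by rw [hδ]; exact min_le_right _ _
      have h2 : 0 < δ := by rw [hδ]; exact lt_min hδ₀ (by linarith)
      obtain ⟨y, hy⟩ : ∃ y, y = max (a + δ) (min 𝓛.m (b - δ)) := ⟨_, rfl⟩
      rw [← hy] at h
      have y1 : a + δ ≤ y := by rw [hy]; exact le_max_left _ _
      have y2 : y ≤ b - δ := by rw [hy]; exact max_le (by linarith) (min_le_right _ _)
      rw [abs_le] at h
      have k1 := mul_le_mul_of_nonneg_right y1 hV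
      have k2 := mul_le_mul_of_nonneg_right y2 hV
      constructor <;> nlinarith [h.1, h.2]
  · rcases lt_trichotomy a 𝓛.m with h | h | h
    · rcases le_or_gt 𝓛.m b with h' | h'
      · left
        rw [max_eq_right]
        exact max_le (by linarith) (by linarith)
      · right
        refine ⟨b, ?_, fun Z t hQ => ?_⟩
        · rw [max_eq_right (show a - 𝓛.m ≤ 𝓛.m - b by linarith), max_eq_left (by linarith)]
          ring
        · exact mul_nonneg_of_nonpos_of_nonpos (by linarith) (by linarith [hQ.2])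
    · left
      rw [max_eq_right]
      exact max_le (by linarith) (by linarith)
    · right
      refine ⟨a, ?_, fun Z t hQ => ?_⟩
      · rw [max_eq_left (show 𝓛.m - b ≤ a - 𝓛.m by linarith), max_eq_left (by linarith)]
      · exact mul_nonneg (by linarith) (by linarith [hQ.1])

/-- **Half-open intervals.** -/
theorem interval_Ico (hCb : 0 ≤ Cb) (hG : Thin ω G Cb) {θ : ℝ} (hθ : 0 < θ) {a b : ℝ} (hab : a < b) {ε : ℝ} (hε : 0 < ε) :
    ∃ Z₀ : ℕ, ∀ Z : ℕ, Z₀ ≤ Z → ∀ H : J → ℕ, (∀ j, Real.exp ((Z : ℝ) ^ (1 + θ)) ≤ H j) →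
      0 < prop ω H G (fun t => a * VZ K Z ≤ 𝓛.W Z t ∧ 𝓛.W Z t < b * VZ K Z) ∧
      |Real.log (prop ω H G (fun t => a * VZ K Z ≤ 𝓛.W Z t ∧ 𝓛.W Z t < b * VZ K Z)) / VZ K Z +
        (max (max (a - 𝓛.m) (𝓛.m - b)) 0) ^ 2 / (2 * 𝓛.D)| ≤ ε := by
  refine ldp_of 𝓛 ω hCb hG hθ (le_max_right _ _) (fun Z t => a * VZ K Z ≤ 𝓛.W Z t ∧ 𝓛.W Z t < b * VZ K Z) ?_ ?_ hε
  · intro δ₀ hδ₀
    refine ⟨min δ₀ ((b - a) / 4), max (a + min δ₀ ((b - a) / 4)) (min 𝓛.m (b - 2 * min δ₀ ((b - a) / 4))), lt_min hδ₀ (by linarith),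
      min_le_left _ _, ?_, ?_⟩
    · obtain ⟨δ, hδ⟩ : ∃ δ, δ = min δ₀ ((b - a) / 4) := ⟨_, rfl⟩
      rw [← hδ]
      have h1 : δ ≤ (b - a) / 4 := by rw [hδ]; exact min_le_right _ _
      have h2 : 0 < δ := by rw [hδ]; exact lt_min hδ₀ (by linarith)
      have m1 := le_max_left (max (a - 𝓛.m) (𝓛.m - b)) 0
      have m2 := le_max_left (a - 𝓛.m) (𝓛.m - b)
      have m3 := le_max_right (a - 𝓛.m) (𝓛.m - b)
      have m4 := le_max_right (max (a - 𝓛.m) (𝓛.m - b)) 0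
      rcases le_total 𝓛.m (b - 2 * δ) with h | h
      · rw [min_eq_left h]
        rcases le_total (a + δ) 𝓛.m with h' | h'
        · rw [max_eq_right h', sub_self, abs_zero]
          linarith
        · rw [max_eq_left h', abs_of_nonneg (by linarith)]
          linarith
      · rw [min_eq_right h, max_eq_right (by linarith), abs_of_nonpos (by linarith)]
        linarith
    · intro Z t hV h
      obtain ⟨δ, hδ⟩ : ∃ δ, δ = min δ₀ ((b - a) / 4) := ⟨_, rfl⟩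
      rw [← hδ] at h
      have h1 : δ ≤ (b - a) / 4 := by rw [hδ]; exact min_le_right _ _
      have h2 : 0 < δ := by rw [hδ]; exact lt_min hδ₀ (by linarith)
      obtain ⟨y, hy⟩ : ∃ y, y = max (a + δ) (min 𝓛.m (b - 2 * δ)) := ⟨_, rfl⟩
      rw [← hy] at h
      have y1 : a + δ ≤ y := by rw [hy]; exact le_max_left _ _
      have y2 : y ≤ b - 2 * δ := by rw [hy]; exact max_le (by linarith) (min_le_right _ _)
      rw [abs_le] at h
      have k1 := mul_le_mul_of_nonneg_right y1 hV.le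
      have k2 := mul_le_mul_of_nonneg_right y2 hV.le
      have k3 : 0 < δ * VZ K Z := mul_pos h2 hV
      constructor <;> nlinarith [h.1, h.2]
  · rcases lt_trichotomy a 𝓛.m with h | h | h
    · rcases le_or_gt 𝓛.m b with h' | h'
      · left
        rw [max_eq_right]
        exact max_le (by linarith) (by linarith)
      · right
        refine ⟨b, ?_, fun Z t hQ => ?_⟩
        · rw [max_eq_right (show a - 𝓛.m ≤ 𝓛.m - b by linarith), max_eq_left (by linarith)]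
          ring
        · exact mul_nonneg_of_nonpos_of_nonpos (by linarith) (by linarith [hQ.2])
    · left
      rw [max_eq_right]
      exact max_le (by linarith) (by linarith)
    · right
      refine ⟨a, ?_, fun Z t hQ => ?_⟩
      · rw [max_eq_left (show 𝓛.m - b ≤ a - 𝓛.m by linarith), max_eq_left (by linarith)]
      · exact mul_nonneg (by linarith) (by linarith [hQ.1])

/-- **Upper half-lines.** -/
theorem half_up (hCb : 0 ≤ Cb) (hG : Thin ω G Cb) {θ : ℝ} (hθ : 0 < θ) (a : ℝ) {ε : ℝ} (hε : 0 < ε) :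
    ∃ Z₀ : ℕ, ∀ Z : ℕ, Z₀ ≤ Z → ∀ H : J → ℕ, (∀ j, Real.exp ((Z : ℝ) ^ (1 + θ)) ≤ H j) →
      0 < prop ω H G (fun t => a * VZ K Z ≤ 𝓛.W Z t) ∧
      |Real.log (prop ω H G (fun t => a * VZ K Z ≤ 𝓛.W Z t)) / VZ K Z + (max (a - 𝓛.m) 0) ^ 2 / (2 * 𝓛.D)| ≤ ε := by
  refine ldp_of 𝓛 ω hCb hG hθ (le_max_right _ _) (fun Z t => a * VZ K Z ≤ 𝓛.W Z t) ?_ ?_ hε
  · intro δ₀ hδ₀
    refine ⟨δ₀, max (a + δ₀) 𝓛.m, hδ₀, le_rfl, ?_, ?_⟩
    · have m1 := le_max_left (a - 𝓛.m) 0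
      have m2 := le_max_right (a - 𝓛.m) 0
      rcases le_total (a + δ₀) 𝓛.m with h' | h'
      · rw [max_eq_right h', sub_self, abs_zero]
        linarith
      · rw [max_eq_left h', abs_of_nonneg (by linarith)]
        linarith
    · intro Z t hV' h
      have hV := hV'.le
      have y1 : a + δ₀ ≤ max (a + δ₀) 𝓛.m := le_max_left _ _
      rw [abs_le] at h
      have k1 := mul_le_mul_of_nonneg_right y1 hV
      nlinarith [h.1, h.2]
  · rcases le_or_gt a 𝓛.m with h | h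
    · left
      exact max_eq_right (by linarith)
    · right
      refine ⟨a, ?_, fun Z t hQ => ?_⟩
      · rw [max_eq_left (by linarith)]
      · have hQ' : a * VZ K Z ≤ 𝓛.W Z t := hQ
        exact mul_nonneg (by linarith) (by linarith)

/-- **Lower half-lines.** -/
theorem half_down (hCb : 0 ≤ Cb) (hG : Thin ω G Cb) {θ : ℝ} (hθ : 0 < θ) (b : ℝ) {ε : ℝ} (hε : 0 < ε) :
    ∃ Z₀ : ℕ, ∀ Z : ℕ, Z₀ ≤ Z → ∀ H : J → ℕ, (∀ j, Real.exp ((Z : ℝ) ^ (1 + θ)) ≤ H j) →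
      0 < prop ω H G (fun t => 𝓛.W Z t ≤ b * VZ K Z) ∧
      |Real.log (prop ω H G (fun t => 𝓛.W Z t ≤ b * VZ K Z)) / VZ K Z + (max (𝓛.m - b) 0) ^ 2 / (2 * 𝓛.D)| ≤ ε := by
  refine ldp_of 𝓛 ω hCb hG hθ (le_max_right _ _) (fun Z t => 𝓛.W Z t ≤ b * VZ K Z) ?_ ?_ hε
  · intro δ₀ hδ₀
    refine ⟨δ₀, min (b - δ₀) 𝓛.m, hδ₀, le_rfl, ?_, ?_⟩
    · have m1 := le_max_left (𝓛.m - b) 0
      have m2 := le_max_right (𝓛.m - b) 0
      rcases le_total (b - δ₀) 𝓛.m with h' | h'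
      · rw [min_eq_left h', abs_of_nonpos (by linarith)]
        linarith
      · rw [min_eq_right h', sub_self, abs_zero]
        linarith
    · intro Z t hV' h
      have hV := hV'.le
      have y1 : min (b - δ₀) 𝓛.m ≤ b - δ₀ := min_le_left _ _
      rw [abs_le] at h
      have k1 := mul_le_mul_of_nonneg_right y1 hV
      nlinarith [h.1, h.2]
  · rcases le_or_gt 𝓛.m b with h | h
    · left
      exact max_eq_right (by linarith)
    · right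
      refine ⟨b, ?_, fun Z t hQ => ?_⟩
      · rw [max_eq_left (by linarith)]
        ring
      · have hQ' : 𝓛.W Z t ≤ b * VZ K Z := hQ
        exact mul_nonneg_of_nonpos_of_nonpos (by linarith) (by linarith)

end

end Run7.h61.LD
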